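import Mathlib

/-!
Ladder system uniformization on trees: under the principle diamond-plus, for every ladder system
`C`, every Aronszajn tree `T` of binary sequences such that all monochromatic colourings of `C`
have a Suslin `T`-uniformization contains a stationary antichain.
-/

set_option autoImplicit false

namespace Pool.Agent.Results.MP_b963f4_lc.NoAlmostSuslin

open Set

/-- The countable ordinals, i.e. the ordinal omega-one as a linear order. -/
abbrev Om1 : Type 1 := ↥(Set.Iio (Ordinal.omega.{0} 1))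

/-- The countable limit ordinals (nonzero, not successors). -/
abbrev Lim : Type 1 := {α : Om1 // Order.IsSuccLimit (α : Ordinal.{0})}

/-- The principle diamond-plus. -/
def DiamondPlus : Prop :=
  ∃ W : Om1 → Set (Set Om1), (∀ α, (W α).Countable) ∧
    ∀ X : Set Om1, ∃ D : Set Om1, IsClub D ∧
      ∀ α ∈ D, X ∩ Set.Iio α ∈ W α ∧ D ∩ Set.Iio α ∈ W α

/-- `C` is a ladder system: each `C α` is a cofinal subset of `α` of order type omega. -/
def IsLadderSystem (C : Lim → Set Om1) : Prop :=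
  ∀ α : Lim, C α ⊆ Set.Iio α.1 ∧ (∀ β < α.1, ∃ γ ∈ C α, β ≤ γ) ∧ Nonempty (↥(C α) ≃o ℕ)

/-- A colouring `f` of the ladder system `C` with natural numbers is monochromatic if every
`f α` is constant. -/
def IsMonochromatic {C : Lim → Set Om1} (f : (α : Lim) → ↥(C α) → ℕ) : Prop :=
  ∀ α : Lim, ∃ c : ℕ, ∀ ξ : ↥(C α), f α ξ = c

/-- A function from a countable ordinal `ht` to `2`. -/
structure Node where
  /-- the domain (height) of the node -/
  ht : Om1
  /-- the values of the node -/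
  val : ↥(Set.Iio ht) → Fin 2

/-- The restriction of `t` to `ξ` (a function with domain `min ξ (ht t)`). -/
noncomputable def Node.restrict (t : Node) (ξ : Om1) : Node :=
  ⟨min ξ t.ht, fun η => t.val ⟨η.1, lt_of_lt_of_le η.2 (min_le_right ξ t.ht)⟩⟩

/-- End-extension order: `s` is the restriction of `t` to the domain of `s`. -/
def Node.Below (s t : Node) : Prop := t.restrict s.ht = s

/-- A tree: a set of nodes closed under restriction. -/
def IsTree (T : Set Node) : Prop := ∀ t ∈ T, ∀ ξ : Om1, t.restrict ξ ∈ T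

/-- An Aronszajn tree: height omega-one, countable levels, no uncountable chain. -/
def IsAronszajn (T : Set Node) : Prop :=
  IsTree T ∧ (∀ α : Om1, ∃ t ∈ T, t.ht = α) ∧ (∀ α : Om1, {t | t ∈ T ∧ t.ht = α}.Countable) ∧
    ∀ A ⊆ T, IsChain Node.Below A → A.Countable

/-- A downward closed set `S` is Suslin if it is uncountable and has no uncountable chains and no
uncountable antichains. -/
def IsSuslin (S : Set Node) : Prop :=
  ¬ S.Countable ∧ (∀ A ⊆ S, IsChain Node.Below A → A.Countable) ∧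
    ∀ A ⊆ S, IsAntichain Node.Below A → A.Countable

/-- `h`, defined on the downward closed set `S`, uniformizes the colouring `f`. -/
def Uniformizes {C : Lim → Set Om1} (f : (α : Lim) → ↥(C α) → ℕ) {S : Set Node} (hS : IsTree S)
    (h : ↥S → ℕ) : Prop :=
  ∀ t : ↥S, ∀ hl : Order.IsSuccLimit (t.1.ht : Ordinal.{0}),
    {ξ : ↥(C ⟨t.1.ht, hl⟩) | h ⟨t.1.restrict ξ.1, hS t.1 t.2 ξ.1⟩ ≠ f ⟨t.1.ht, hl⟩ ξ}.Finite

/-- The colouring `f` has a Suslin `T`-uniformization. -/
def HasSuslinUniformization {C : Lim → Set Om1} (T : Set Node)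
    (f : (α : Lim) → ↥(C α) → ℕ) : Prop :=
  ∃ (S : Set Node) (hS : IsTree S), S ⊆ T ∧ IsSuslin S ∧ ∃ h : ↥S → ℕ, Uniformizes f hS h

/-- `T` has a stationary antichain (that is, `T` is not almost Suslin). -/
def HasStationaryAntichain (T : Set Node) : Prop :=
  ∃ A ⊆ T, IsAntichain Node.Below A ∧ IsStationary (Node.ht '' A)

/-! ### Facts about the countable ordinals -/

theorem countable_Iio (α : Om1) : (Set.Iio α).Countable := by
  have h1 : (Set.Iio (α : Ordinal.{0})).Countable := by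
    have h0 : (α : Ordinal.{0}) < (Cardinal.aleph 1).ord := by
      rw [Cardinal.ord_aleph]; exact α.2
    rw [Cardinal.lt_ord, ← Cardinal.succ_aleph0, Order.lt_succ_iff] at h0
    rw [← Cardinal.le_aleph0_iff_set_countable, Cardinal.mk_Iio_ordinal]
    exact Cardinal.lift_le_aleph0.2 h0
  have : Set.Iio α = Subtype.val ⁻¹' (Set.Iio (α : Ordinal.{0})) := by
    ext x; simp
  rw [this]
  exact h1.preimage_of_injOn Subtype.val_injective.injOn

theorem mk_Om1 : Cardinal.mk Om1 = Cardinal.aleph 1 := by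
  rw [Cardinal.mk_Iio_ordinal]
  simp

theorem zero_mem : (0 : Ordinal.{0}) ∈ Set.Iio (Ordinal.omega.{0} 1) :=
  lt_trans Ordinal.omega0_pos Ordinal.omega0_lt_omega_one

theorem nonempty_Om1 : Nonempty Om1 := ⟨⟨0, zero_mem⟩⟩

theorem exists_bound {s : Set Om1} (hs : s.Countable) : ∃ β : Om1, ∀ x ∈ s, x < β := by
  by_contra hcon
  push Not at hcon
  have hu : (univ : Set Om1) ⊆ s ∪ ⋃ x ∈ s, Set.Iio x := by
    intro β _
    obtain ⟨x, hx, hle⟩ := hcon β
    rcases hle.lt_or_eq with h | h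
    · right; simp only [mem_iUnion]; exact ⟨x, hx, h⟩
    · left; rw [h]; exact hx
  have hc : (univ : Set Om1).Countable :=
    (hs.union (hs.biUnion fun x _ => countable_Iio x)).mono hu
  have : Countable Om1 := Set.countable_univ_iff.1 hc
  have h2 : Cardinal.mk Om1 ≤ Cardinal.aleph0 := Cardinal.mk_le_aleph0
  rw [mk_Om1] at h2
  exact absurd h2 (not_le.2 Cardinal.aleph0_lt_aleph_one)

theorem cof_ne : Order.cof Om1 ≠ Cardinal.aleph0 := by
  intro h
  obtain ⟨s, hs, hs'⟩ := Order.exists_cof_eq Om1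
  rw [h] at hs'
  have hc : s.Countable := Cardinal.le_aleph0_iff_set_countable.1 hs'.le
  obtain ⟨β, hβ⟩ := exists_bound hc
  obtain ⟨x, hx, hle⟩ := hs β
  exact absurd (hβ x hx) (not_lt.2 hle)

/-- Limit points closed under `g` form a club. -/
theorem isClub_closure (g : Om1 → Om1) :
    IsClub {α : Om1 | Order.IsSuccLimit (α : Ordinal.{0}) ∧ ∀ β < α, g β < α} := by
  constructor
  · intro s hs hne _ a ha
    by_cases hmem : a ∈ s
    · exact hs hmem
    have key : ∀ β < a, ∃ γ ∈ s, β < γ ∧ γ < a := by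
      intro β hβ
      by_contra hcon
      push Not at hcon
      have : β ∈ upperBounds s := by
        intro γ hγ
        by_contra hlt
        push Not at hlt
        have h1 := hcon γ hγ hlt
        have h2 := ha.1 hγ
        exact hmem (le_antisymm h2 h1 ▸ hγ)
      exact absurd (ha.2 this) (not_le.2 hβ)
    refine ⟨?_, ?_⟩
    · obtain ⟨γ0, hγ0⟩ := hne
      rw [Ordinal.isSuccLimit_iff]
      constructor
      · intro h0
        have h1 : (γ0 : Ordinal.{0}) ≤ a := ha.1 hγ0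
        rw [h0] at h1
        exact (hs hγ0).1.ne_bot (le_antisymm h1 bot_le)
      · apply Order.isSuccPrelimit_of_succ_lt
        intro b hb
        obtain ⟨γ, _, h1, h2⟩ := key ⟨b, lt_trans hb a.2⟩ hb
        exact lt_of_le_of_lt (Order.succ_le_of_lt (show b < (γ : Ordinal.{0}) from h1)) h2
    · intro β hβ
      obtain ⟨γ, hγ, h1, h2⟩ := key β hβ
      exact lt_trans ((hs hγ).2 β h1) h2
  · intro a
    -- next step: a strict bound for `x` and all `g β` with `β ≤ x`
    have hstep : ∀ x : Om1, ∃ y : Om1, x < y ∧ ∀ β ≤ x, g β < y := by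
      intro x
      have hc : (insert x (g '' (insert x (Set.Iio x)))).Countable :=
        (((countable_Iio x).insert x).image g).insert x
      obtain ⟨y, hy⟩ := exists_bound hc
      refine ⟨y, hy x (mem_insert _ _), fun β hβ => hy _ (mem_insert_of_mem _ ⟨β, ?_, rfl⟩)⟩
      rcases hβ.lt_or_eq with h | h
      · exact mem_insert_of_mem _ h
      · rw [h]; exact mem_insert _ _
    choose nx hnx1 hnx2 using hstep
    let u : ℕ → Om1 := fun n => nx^[n] a
    have hu : ∀ n, u (n + 1) = nx (u n) := fun n => Function.iterate_succ_apply' nx n a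
    obtain ⟨b, hb⟩ := exists_bound (Set.countable_range u)
    have hne : {y : Om1 | ∀ n, u n < y}.Nonempty := ⟨b, fun n => hb _ ⟨n, rfl⟩⟩
    let c : Om1 := wellFounded_lt.min _ hne
    have hc1 : ∀ n, u n < c := wellFounded_lt.min_mem _ hne
    have hc2 : ∀ β < c, ∃ n, β ≤ u n := by
      intro β hβ
      by_contra hcon
      push Not at hcon
      exact wellFounded_lt.not_lt_min _ (show β ∈ {y : Om1 | ∀ n, u n < y} from hcon) hβ
    refine ⟨c, ⟨?_, ?_⟩, (hc1 0).le⟩
    · rw [Ordinal.isSuccLimit_iff]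
      constructor
      · intro h0
        have h1 : (u 0 : Ordinal.{0}) < c := hc1 0
        rw [h0] at h1
        exact absurd h1 (not_lt.2 bot_le)
      · apply Order.isSuccPrelimit_of_succ_lt
        intro x hx
        obtain ⟨n, hn⟩ := hc2 ⟨x, lt_trans hx c.2⟩ hx
        have h1 : u n < u (n + 1) := by rw [hu]; exact hnx1 _
        have h2 : x < (u (n + 1) : Ordinal.{0}) := lt_of_le_of_lt hn h1
        exact lt_of_le_of_lt (Order.succ_le_of_lt h2) (hc1 (n + 1))
    · intro β hβ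
      obtain ⟨n, hn⟩ := hc2 β hβ
      have := hnx2 (u n) β hn
      rw [← hu] at this
      exact lt_trans this (hc1 (n + 1))

theorem exists_ladderSystem : ∃ C : Lim → Set Om1, IsLadderSystem C := by
  have key : ∀ α : Lim, ∃ s : Set Om1, s ⊆ Set.Iio α.1 ∧ (∀ β < α.1, ∃ γ ∈ s, β ≤ γ) ∧
      Nonempty (↥s ≃o ℕ) := by
    intro α
    have hstep : ∀ x y : ↥(Set.Iio α.1), ∃ z : ↥(Set.Iio α.1), x < z ∧ y ≤ z := by
      intro x y
      have h1 : ((max x y : ↥(Set.Iio α.1)) : Om1) < α.1 := (max x y).2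
      have h2 : Order.succ (((max x y : ↥(Set.Iio α.1)) : Om1) : Ordinal.{0}) < α.1 :=
        α.2.succ_lt h1
      refine ⟨⟨⟨_, lt_trans h2 α.1.2⟩, h2⟩, ?_, ?_⟩
      · exact lt_of_le_of_lt (le_max_left x y)
          (Order.lt_succ (((max x y : ↥(Set.Iio α.1)) : Om1) : Ordinal.{0}))
      · exact le_trans (le_max_right x y)
          (Order.le_succ (((max x y : ↥(Set.Iio α.1)) : Om1) : Ordinal.{0}))
    choose nx hnx1 hnx2 using hstep
    have hne : (Set.Iio α.1).Nonempty := ⟨⟨0, zero_mem⟩, α.2.bot_lt⟩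
    obtain ⟨b, hb⟩ := (countable_Iio α.1).exists_eq_range hne
    have hb' : ∀ n, b n ∈ Set.Iio α.1 := fun n => hb ▸ ⟨n, rfl⟩
    let a : ℕ → ↥(Set.Iio α.1) := fun n =>
      Nat.rec ⟨b 0, hb' 0⟩ (fun k x => nx x ⟨b k, hb' k⟩) n
    have ha : ∀ n, a (n + 1) = nx (a n) ⟨b n, hb' n⟩ := fun n => rfl
    have hmono : StrictMono fun n => (a n).1 := by
      apply strictMono_nat_of_lt_succ
      intro n
      rw [ha]; exact hnx1 _ _
    refine ⟨range fun n => (a n).1, ?_, ?_, ⟨(hmono.orderIso _).symm⟩⟩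
    · rintro _ ⟨n, rfl⟩; exact (a n).2
    · intro β hβ
      have : β ∈ range b := hb ▸ hβ
      obtain ⟨n, rfl⟩ := this
      exact ⟨_, ⟨n + 1, rfl⟩, hnx2 (a n) ⟨b n, hb' n⟩⟩
  choose C hC using key
  exact ⟨C, hC⟩

/-- A tree with countable levels can be coded, with two natural numbers, into omega-one. -/
theorem exists_code {T : Set Node} (hT : ∀ α : Om1, {t | t ∈ T ∧ t.ht = α}.Countable) :
    ∃ e : Node → ℕ → ℕ → Om1, ∀ t ∈ T, ∀ t' ∈ T, ∀ i n i' n',
      e t i n = e t' i' n' → t = t' ∧ i = i' ∧ n = n' := by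
  have h1 : ∀ α : Om1, ∃ c : Node → ℕ, InjOn c {t | t ∈ T ∧ t.ht = α} := fun α =>
    Set.countable_iff_exists_injOn.1 (hT α)
  choose c hc using h1
  have h2 : Cardinal.mk (Om1 × ULift.{1} ℕ × ULift.{1} ℕ × ULift.{1} ℕ) ≤ Cardinal.mk Om1 := by
    rw [Cardinal.mk_prod, Cardinal.mk_prod, Cardinal.mk_prod, mk_Om1]
    simp
  obtain ⟨j⟩ := (Cardinal.le_def _ _).1 h2
  refine ⟨fun t i n => j (t.ht, ⟨c t.ht t⟩, ⟨i⟩, ⟨n⟩), ?_⟩
  intro t ht t' ht' i n i' n' h
  have h3 := j.injective h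
  simp only [Prod.mk.injEq, ULift.up.injEq] at h3
  obtain ⟨h4, h5, h6, h7⟩ := h3
  refine ⟨hc t.ht ⟨ht, rfl⟩ ⟨ht', h4.symm⟩ ?_, h6, h7⟩
  rw [h5, h4]

theorem restrict_ht_of_le (t : Node) {ξ : Om1} (h : ξ ≤ t.ht) : (t.restrict ξ).ht = ξ :=
  min_eq_left h

theorem exists_mem_level {T S : Set Node} (hT : ∀ α : Om1, {t | t ∈ T ∧ t.ht = α}.Countable)
    (hS : IsTree S) (hST : S ⊆ T) (hu : ¬ S.Countable) (α : Om1) : ∃ s ∈ S, s.ht = α := by
  by_contra hcon
  push Not at hcon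
  apply hu
  refine ((countable_Iio α).biUnion fun β _ => hT β).mono ?_
  intro s hs
  simp only [mem_iUnion]
  refine ⟨s.ht, ?_, hST hs, rfl⟩
  by_contra hle
  have hle' : α ≤ s.ht := not_lt.1 hle
  exact hcon _ (hS s hs α) (restrict_ht_of_le s hle')

theorem main (hd : DiamondPlus) (C : Lim → Set Om1) (hC : IsLadderSystem C) (T : Set Node)
    (hT0 : IsTree T) (hT : ∀ α : Om1, {t | t ∈ T ∧ t.ht = α}.Countable)
    (hU : ∀ f : (α : Lim) → ↥(C α) → ℕ, IsMonochromatic f →
      ∃ (S : Set Node) (hS : IsTree S), S ⊆ T ∧ ¬ S.Countable ∧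
        ∃ h : ↥S → ℕ, Uniformizes f hS h) :
    HasStationaryAntichain T := by
  classical
  have := nonempty_Om1
  obtain ⟨W, hWc, hW⟩ := hd
  obtain ⟨e, he⟩ := exists_code hT
  -- enumerate the guesses
  have hy : ∀ α, ∃ y : ℕ → Set Om1, W α ⊆ range y := fun α =>
    Set.countable_iff_exists_subset_range.1 (hWc α)
  choose y hy using hy
  -- the node chosen at level `α` for the `i`-th guess
  let Good : ℕ → Om1 → Node → Prop := fun i α t =>
    t ∈ T ∧ t.ht = α ∧ ∀ ξ < α, ∃ n, e (t.restrict ξ) i n ∈ y α i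
  have hpick : ∀ i α, ∃ t : Node, (∃ s, Good i α s) → Good i α t := by
    intro i α
    by_cases h : ∃ s, Good i α s
    · obtain ⟨s, hs⟩ := h
      exact ⟨s, fun _ => hs⟩
    · exact ⟨⟨α, fun _ => 0⟩, fun h' => absurd h' h⟩
  choose p hp using hpick
  let col : ℕ → Lim → ℕ := fun i α =>
    if {ξ : ↥(C α) | e ((p i α.1).restrict ξ.1) i 0 ∉ y α.1 i}.Finite then 1 else 0
  have hU' := fun i => hU (fun α _ => col i α) (fun α => ⟨col i α, fun _ => rfl⟩)
  choose S hS hST hSu h hh using hU'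
  let X : Set Om1 := {x | ∃ i, ∃ t : ↥(S i), x = e t.1 i (h i t)}
  obtain ⟨D, hD, hDW⟩ := hW X
  -- bound for the codes of a level
  have hg : ∀ β : Om1, ∃ γ : Om1, ∀ t ∈ T, t.ht = β → ∀ i n, e t i n < γ := by
    intro β
    have hc : (⋃ t ∈ {t | t ∈ T ∧ t.ht = β}, ⋃ i, range (e t i)).Countable :=
      (hT β).biUnion fun t _ => countable_iUnion fun i => countable_range _
    obtain ⟨γ, hγ⟩ := exists_bound hc
    refine ⟨γ, fun t ht hβ i n => hγ _ ?_⟩
    simp only [mem_iUnion]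
    exact ⟨t, ⟨ht, hβ⟩, i, n, rfl⟩
  choose g hg using hg
  let G : Set Om1 := {α : Om1 | Order.IsSuccLimit (α : Ordinal.{0}) ∧ ∀ β < α, g β < α}
  have hG : IsClub G := isClub_closure g
  let E : ℕ → Set Om1 := fun i => {α | α ∈ G ∧ y α i = X ∩ Set.Iio α}
  have hstat : IsStationary (⋃ i, E i) := by
    refine ((hD.inter cof_ne hG).isStationary cof_ne).mono ?_
    intro α hα
    obtain ⟨i, hi⟩ := hy α (hDW α hα.1).1
    exact mem_iUnion.2 ⟨i, hα.2, hi⟩
  obtain ⟨i, hi⟩ := (isStationary_iUnion_iff_of_countable cof_ne).1 hstat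
  -- decoding
  have hdec : ∀ α ∈ E i, ∀ t ∈ T, t.ht < α → ∀ n,
      (e t i n ∈ y α i ↔ ∃ ht : t ∈ S i, h i ⟨t, ht⟩ = n) := by
    intro α hα t ht hlt n
    rw [hα.2]
    constructor
    · rintro ⟨⟨j, s, hs⟩, -⟩
      obtain ⟨h1, h2, h3⟩ := he t ht s.1 (hST j s.2) _ _ _ _ hs
      subst h2
      subst h1
      exact ⟨s.2, h3.symm⟩
    · rintro ⟨hts, rfl⟩
      exact ⟨⟨i, ⟨t, hts⟩, rfl⟩, lt_trans (hg t.ht t ht rfl _ _) (hα.1.2 _ hlt)⟩
  have hgood : ∀ α ∈ E i, Good i α (p i α) := by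
    intro α hα
    apply hp
    obtain ⟨s, hs, hsα⟩ := exists_mem_level hT (hS i) (hST i) (hSu i) α
    refine ⟨s, hST i hs, hsα, fun ξ hξ => ?_⟩
    have h1 : (s.restrict ξ).ht < α := by
      rw [restrict_ht_of_le s (hsα ▸ hξ.le)]; exact hξ
    exact ⟨_, (hdec α hα _ (hT0 s (hST i hs) ξ) h1 _).2 ⟨hS i s hs ξ, rfl⟩⟩
  have hbelow : ∀ α ∈ E i, ∀ ξ < α, (p i α).restrict ξ ∈ S i := by
    intro α hα ξ hξ
    obtain ⟨h1, h2, h3⟩ := hgood α hα
    obtain ⟨n, hn⟩ := h3 ξ hξ
    have h4 : ((p i α).restrict ξ).ht < α := by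
      rw [restrict_ht_of_le _ (h2.symm ▸ hξ.le)]; exact hξ
    exact ((hdec α hα _ (hT0 _ h1 ξ) h4 n).1 hn).1
  have hnot : ∀ α ∈ E i, p i α ∉ S i := by
    intro α hα hmem
    obtain ⟨h1, h2, -⟩ := hgood α hα
    have hl : Order.IsSuccLimit (α : Ordinal.{0}) := hα.1.1
    have hfin : {ξ : ↥(C ⟨α, hl⟩) |
        h i ⟨(p i α).restrict ξ.1, hS i _ hmem ξ.1⟩ ≠ col i ⟨α, hl⟩}.Finite := by
      have h5 : ∀ (β : Om1) (hβ : Order.IsSuccLimit (β : Ordinal.{0})), (p i α).ht = β →
          {ξ : ↥(C ⟨β, hβ⟩) |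
            h i ⟨(p i α).restrict ξ.1, hS i _ hmem ξ.1⟩ ≠ col i ⟨β, hβ⟩}.Finite := by
        intro β hβ hEq
        subst hEq
        exact hh i ⟨p i α, hmem⟩ hβ
      exact h5 α hl h2
    have hiff : ∀ ξ : ↥(C ⟨α, hl⟩), e ((p i α).restrict ξ.1) i 0 ∈ y α i ↔
        h i ⟨(p i α).restrict ξ.1, hS i _ hmem ξ.1⟩ = 0 := by
      intro ξ
      have hξ : ξ.1 < α := (hC ⟨α, hl⟩).1 ξ.2
      have h4 : ((p i α).restrict ξ.1).ht < α := by
        rw [restrict_ht_of_le _ (h2.symm ▸ hξ.le)]; exact hξ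
      rw [hdec α hα _ (hT0 _ h1 ξ.1) h4 0]
      exact ⟨fun ⟨_, h⟩ => h, fun h => ⟨_, h⟩⟩
    by_cases hc : {ξ : ↥(C ⟨α, hl⟩) | e ((p i α).restrict ξ.1) i 0 ∉ y α i}.Finite
    · have hcol : col i ⟨α, hl⟩ = 1 := if_pos hc
      rw [hcol] at hfin
      obtain ⟨iso⟩ := (hC ⟨α, hl⟩).2.2
      have : Infinite ↥(C ⟨α, hl⟩) := Infinite.of_injective _ iso.symm.injective
      obtain ⟨ξ, hξ⟩ := (hc.union hfin).exists_notMem
      simp only [mem_union, mem_ofPred_eq, not_or, not_not] at hξ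
      have := (hiff ξ).1 hξ.1
      omega
    · have hcol : col i ⟨α, hl⟩ = 0 := if_neg hc
      rw [hcol] at hfin
      apply hc
      refine hfin.subset fun ξ hξ => ?_
      exact fun h0 => hξ ((hiff ξ).2 h0)
  refine ⟨p i '' E i, ?_, ?_, hi.mono ?_⟩
  · rintro _ ⟨α, hα, rfl⟩
    exact (hgood α hα).1
  · rintro _ ⟨α, hα, rfl⟩ _ ⟨β, hβ, rfl⟩ hne hle
    have hα2 := (hgood α hα).2.1
    have hβ2 := (hgood β hβ).2.1
    have hle' : (p i β).restrict α = p i α := by
      have := hle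
      unfold Node.Below at this
      rwa [hα2] at this
    have h1 : α ≤ β := by
      have := congrArg Node.ht hle'
      rw [hα2] at this
      have h3 : ((p i β).restrict α).ht ≤ (p i β).ht := min_le_right _ _
      rwa [this, hβ2] at h3
    rcases h1.lt_or_eq with h2 | h2
    · exact hnot α hα (hle' ▸ hbelow β hβ α h2)
    · exact hne (by rw [h2])
  · intro α hα
    exact ⟨p i α, ⟨α, hα, rfl⟩, (hgood α hα).2.1⟩

/-- Ladder systems exist, and under diamond-plus every ladder system `C` has the property that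
every Aronszajn tree for which all monochromatic colourings of `C` have Suslin uniformizations
contains a stationary antichain. -/
theorem result :
    (∃ C : Lim → Set Om1, IsLadderSystem C) ∧
    (DiamondPlus → ∀ C : Lim → Set Om1, IsLadderSystem C → ∀ T : Set Node, IsAronszajn T →
      (∀ f : (α : Lim) → ↥(C α) → ℕ, IsMonochromatic f → HasSuslinUniformization T f) →
      HasStationaryAntichain T) := by
  refine ⟨exists_ladderSystem, fun hd C hC T hT hU => main hd C hC T hT.1 hT.2.2.1 ?_⟩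
  intro f hf
  obtain ⟨S, hS, hST, hSus, h, hh⟩ := hU f hf
  exact ⟨S, hS, hST, hSus.1, h, hh⟩

end Pool.Agent.Results.MP_b963f4_lc.NoAlmostSuslin

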